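import Pool.Agent.W114.HL.Stm
import Pool.Agent.H951R4.OD.F1
import Pool.Agent.H951R4.OD.A1

set_option autoImplicit false

/-! # HL-DH: the data of symmetric designs -/

namespace Pool.Agent.W12.HL

open Finset Filter Topology Pool.Agent.W114.HL
open Pool.Agent.H951R4.OD (ch PI Ex)

/-- the polynomial -/
def P (lam n : ℕ) : ℕ := n ^ 2 + (2 * lam - 1) * n + lam ^ 2

theorem fl_P (lam : ℕ) (hl : 1 ≤ lam) (n : ℕ) :
    Pool.Agent.H951R4.OD.fl lam n = ((P lam n : ℕ) : ℤ) := by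
  unfold Pool.Agent.H951R4.OD.fl P
  push_cast
  rw [Nat.cast_sub (by omega)]
  push_cast
  ring

theorem card_q (lam : ℕ) (hl : 1 ≤ lam) (q : ℕ) (hq : q.Prime)
    (hc : ¬ q ∣ 2 * lam * (4 * lam - 1)) :
    (((range q).filter (fun n : ℕ => q ∣ P lam n)).card : ℝ) = 1 + ch (1 - 4 * (lam : ℤ)) q := by
  have h := (Pool.Agent.H951R4.OD.pol_fl lam hl).cnt q hq hc
  have e : (range q).filter (fun n : ℕ => (q : ℤ) ∣ Pool.Agent.H951R4.OD.fl lam n) =
      (range q).filter (fun n : ℕ => q ∣ P lam n) := by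
    apply Finset.filter_congr
    intro n _
    rw [fl_P lam hl, Int.natCast_dvd_natCast]
  rw [e] at h
  rw [h, one_mul]

theorem dvd_add_mul (lam m n k : ℕ) : m ∣ P lam (n + m * k) ↔ m ∣ P lam n := by
  have e : P lam (n + m * k) = P lam n + m * (k * (2 * n + m * k + (2 * lam - 1))) := by
    unfold P
    ring
  rw [e]
  exact (Nat.dvd_add_left (dvd_mul_right _ _))

theorem card_q2 (lam q : ℕ) :
    ((range (q ^ 2)).filter (fun n : ℕ => q ∣ P lam n)).card =
      q * ((range q).filter (fun n : ℕ => q ∣ P lam n)).card := by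
  have key : ∀ j : ℕ, ((range (q * j)).filter (fun n : ℕ => q ∣ P lam n)).card =
      j * ((range q).filter (fun n : ℕ => q ∣ P lam n)).card := by
    intro j
    induction j with
    | zero => simp
    | succ j ih =>
      have e : (range (q * (j + 1))).filter (fun n : ℕ => q ∣ P lam n) =
          (range (q * j)).filter (fun n : ℕ => q ∣ P lam n) ∪
          ((range q).filter (fun n : ℕ => q ∣ P lam n)).map (addLeftEmbedding (q * j)) := by
        ext n
        simp only [mem_filter, mem_range, mem_union, Finset.mem_map, addLeftEmbedding_apply]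
        constructor
        · rintro ⟨h1, h2⟩
          rcases Nat.lt_or_ge n (q * j) with h3 | h3
          · exact Or.inl ⟨h3, h2⟩
          · right
            refine ⟨n - q * j, ⟨by rw [mul_add, mul_one] at h1; omega, ?_⟩, by omega⟩
            have h4 : n = (n - q * j) + q * j := by omega
            rw [h4] at h2
            exact (dvd_add_mul lam q _ j).mp h2
        · rintro (⟨h1, h2⟩ | ⟨m, ⟨h1, h2⟩, rfl⟩)
          · exact ⟨by rw [mul_add, mul_one]; omega, h2⟩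
          · refine ⟨by rw [mul_add, mul_one]; omega, ?_⟩
            rw [add_comm (q * j) m]
            exact (dvd_add_mul lam q m j).mpr h2
      rw [e, card_union_of_disjoint, card_map, ih]
      · ring
      · rw [Finset.disjoint_left]
        intro n h1 h2
        simp only [mem_filter, mem_range, Finset.mem_map, addLeftEmbedding_apply] at h1 h2
        obtain ⟨m, -, rfl⟩ := h2
        omega
  have := key q
  rw [← sq] at this
  exact this

/-- at most two `n` modulo `q ^ 2` with `q ^ 2 ∣ P (g n)` -/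
theorem card_sq (lam : ℕ) (hl : 1 ≤ lam) (q : ℕ) (hq : q.Prime)
    (hc : ¬ q ∣ 2 * lam * (4 * lam - 1)) (g : ℕ) (hg : ¬ q ∣ g) :
    ((range (q ^ 2)).filter (fun n : ℕ => q ^ 2 ∣ P lam (g * n))).card ≤ 2 := by
  have hq3 : ¬ (q : ℤ) ∣ 1 - 4 * (lam : ℤ) := by
    intro h
    apply hc
    have h1 : (q : ℤ) ∣ ((4 * lam - 1 : ℕ) : ℤ) := by
      rw [Nat.cast_sub (by omega)]
      push_cast
      have := (dvd_neg (a := (q : ℤ))).2 h
      simpa using this
    have h2 : q ∣ 4 * lam - 1 := by exact_mod_cast h1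
    exact dvd_mul_of_dvd_right h2 _
  have hqp : Prime (q : ℤ) := Nat.prime_iff_prime_int.mp hq
  have hPz : ∀ x : ℕ, ((P lam x : ℕ) : ℤ) = (x : ℤ) ^ 2 + (2 * (lam : ℤ) - 1) * x + (lam : ℤ) ^ 2 := by
    intro x
    rw [← fl_P lam hl]
    rfl
  -- two roots
  have key : ∀ x y : ℕ, q ^ 2 ∣ P lam x → q ^ 2 ∣ P lam y →
      ((q : ℤ) ^ 2 ∣ (x : ℤ) - y) ∨ ((q : ℤ) ^ 2 ∣ (x : ℤ) + y + (2 * (lam : ℤ) - 1)) := by
    intro x y hx hy
    have hx' : (q : ℤ) ^ 2 ∣ (x : ℤ) ^ 2 + (2 * (lam : ℤ) - 1) * x + (lam : ℤ) ^ 2 := by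
      rw [← hPz]; exact_mod_cast hx
    have hy' : (q : ℤ) ^ 2 ∣ (y : ℤ) ^ 2 + (2 * (lam : ℤ) - 1) * y + (lam : ℤ) ^ 2 := by
      rw [← hPz]; exact_mod_cast hy
    have hp : (q : ℤ) ^ 2 ∣ ((x : ℤ) - y) * ((x : ℤ) + y + (2 * (lam : ℤ) - 1)) := by
      have e : ((x : ℤ) - y) * ((x : ℤ) + y + (2 * (lam : ℤ) - 1)) =
          ((x : ℤ) ^ 2 + (2 * (lam : ℤ) - 1) * x + (lam : ℤ) ^ 2) -
          ((y : ℤ) ^ 2 + (2 * (lam : ℤ) - 1) * y + (lam : ℤ) ^ 2) := by
        ring
      rw [e]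
      exact dvd_sub hx' hy'
    by_cases h1 : (q : ℤ) ∣ (x : ℤ) - y
    · have h2 : ¬ (q : ℤ) ∣ (x : ℤ) + y + (2 * (lam : ℤ) - 1) := by
        intro h2
        apply hq3
        have h3 : (q : ℤ) ∣ 2 * x + (2 * (lam : ℤ) - 1) := by
          have := dvd_add h1 h2
          have e : (x : ℤ) - y + (x + y + (2 * (lam : ℤ) - 1)) = 2 * x + (2 * (lam : ℤ) - 1) := by
            ring
          rwa [e] at this
        have h4 : (q : ℤ) ∣ (x : ℤ) ^ 2 + (2 * (lam : ℤ) - 1) * x + (lam : ℤ) ^ 2 :=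
          (dvd_pow_self _ two_ne_zero).trans hx'
        have e : (1 - 4 * (lam : ℤ)) = (2 * x + (2 * (lam : ℤ) - 1)) * (2 * x + (2 * (lam : ℤ) - 1)) -
            4 * ((x : ℤ) ^ 2 + (2 * (lam : ℤ) - 1) * x + (lam : ℤ) ^ 2) := by ring
        rw [e]
        exact dvd_sub (h3.mul_left _) (h4.mul_left _)
      left
      have hcop : IsCoprime ((q : ℤ) ^ 2) ((x : ℤ) + y + (2 * (lam : ℤ) - 1)) :=
        ((hqp.coprime_iff_not_dvd).mpr h2).pow_left
      exact hcop.dvd_of_dvd_mul_right hp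
    · right
      have hcop : IsCoprime ((q : ℤ) ^ 2) ((x : ℤ) - y) :=
        ((hqp.coprime_iff_not_dvd).mpr h1).pow_left
      exact hcop.dvd_of_dvd_mul_left hp
  have hgz : ¬ (q : ℤ) ∣ (g : ℤ) := by
    intro h
    exact hg (by exact_mod_cast h)
  have hcg : IsCoprime ((q : ℤ) ^ 2) (g : ℤ) := ((hqp.coprime_iff_not_dvd).mpr hgz).pow_left
  have hint : ∀ x y : ℕ, x < q ^ 2 → y < q ^ 2 → (q : ℤ) ^ 2 ∣ ((g * x : ℕ) : ℤ) - (g * y : ℕ) →
      x = y := by
    intro x y hx hy h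
    have h0 : (q : ℤ) ^ 2 ∣ (x : ℤ) - y := by
      apply hcg.dvd_of_dvd_mul_left
      have e : (g : ℤ) * ((x : ℤ) - y) = ((g * x : ℕ) : ℤ) - (g * y : ℕ) := by push_cast; ring
      rw [e]
      exact h
    have h1 : |(x : ℤ) - y| < (q : ℤ) ^ 2 := by
      have hx' : (x : ℤ) < (q : ℤ) ^ 2 := by exact_mod_cast hx
      have hy' : (y : ℤ) < (q : ℤ) ^ 2 := by exact_mod_cast hy
      rw [abs_lt]
      constructor <;> omega
    have h2 := Int.eq_zero_of_abs_lt_dvd h0 h1
    omega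
  by_contra hcon
  push Not at hcon
  obtain ⟨x, y, z, hx, hy, hz, hxy, hxz, hyz⟩ := Finset.two_lt_card_iff.mp hcon
  rw [mem_filter, mem_range] at hx hy hz
  have k1 := (key (g * x) (g * y) hx.2 hy.2).resolve_left fun h => hxy (hint x y hx.1 hy.1 h)
  have k2 := (key (g * x) (g * z) hx.2 hz.2).resolve_left fun h => hxz (hint x z hx.1 hz.1 h)
  have k3 : (q : ℤ) ^ 2 ∣ ((g * y : ℕ) : ℤ) - (g * z : ℕ) := by
    have := dvd_sub k1 k2
    have e : ((g * x : ℕ) : ℤ) + (g * y : ℕ) + (2 * (lam : ℤ) - 1) -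
        (((g * x : ℕ) : ℤ) + (g * z : ℕ) + (2 * (lam : ℤ) - 1)) =
        ((g * y : ℕ) : ℤ) - (g * z : ℕ) := by ring
    rwa [e] at this
  exact hyz (hint y z hy.1 hz.1 k3)

theorem cnt_aux (lam : ℕ) (hl : 1 ≤ lam) (q : ℕ) (hq : q.Prime)
    (hc : ¬ q ∣ 2 * lam * (4 * lam - 1))
    (inst : DecidablePred fun n : ℕ => q ∣ P lam n ∧ ¬ q ^ 2 ∣ P lam n) :
    |(((range (q ^ 2)).filter (fun n : ℕ => q ∣ P lam n ∧ ¬ q ^ 2 ∣ P lam n)).card : ℝ) -
      q * (1 + ch (1 - 4 * (lam : ℤ)) q)| ≤ 2 := by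
  have h1 := card_q lam hl q hq hc
  have h2 := card_q2 lam q
  have h3 := card_sq lam hl q hq hc 1 (fun h => hq.one_lt.ne' (Nat.dvd_one.1 h))
  simp only [one_mul] at h3
  have h4 : ((range (q ^ 2)).filter (fun n => q ∣ P lam n ∧ ¬ q ^ 2 ∣ P lam n)).card +
      ((range (q ^ 2)).filter (fun n => q ^ 2 ∣ P lam n)).card =
      ((range (q ^ 2)).filter (fun n => q ∣ P lam n)).card := by
    rw [← card_union_of_disjoint]
    · congr 1
      ext n
      simp only [mem_union, mem_filter, mem_range]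
      constructor
      · rintro (⟨a, b, -⟩ | ⟨a, b⟩)
        · exact ⟨a, b⟩
        · exact ⟨a, (dvd_pow_self q two_ne_zero).trans b⟩
      · rintro ⟨a, b⟩
        by_cases h : q ^ 2 ∣ P lam n
        · exact Or.inr ⟨a, h⟩
        · exact Or.inl ⟨a, b, h⟩
    · rw [Finset.disjoint_left]
      intro n a b
      rw [mem_filter] at a b
      exact a.2.2 b.2
  rw [h2] at h4
  have h5 : (((range (q ^ 2)).filter (fun n => q ∣ P lam n ∧ ¬ q ^ 2 ∣ P lam n)).card : ℝ) +
      (((range (q ^ 2)).filter (fun n => q ^ 2 ∣ P lam n)).card : ℝ) =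
      q * (((range q).filter (fun n : ℕ => q ∣ P lam n)).card : ℝ) := by
    exact_mod_cast h4
  rw [h1] at h5
  have h6 : (((range (q ^ 2)).filter (fun n => q ^ 2 ∣ P lam n)).card : ℝ) ≤ 2 := by
    exact_mod_cast h3
  have h7 : (0 : ℝ) ≤ (((range (q ^ 2)).filter (fun n => q ^ 2 ∣ P lam n)).card : ℝ) :=
    Nat.cast_nonneg _
  rw [abs_le]
  constructor <;> linarith

theorem P_zmod (lam : ℕ) (hl : 1 ≤ lam) (q n : ℕ) :
    ((P lam n : ℕ) : ZMod q) = ((n : ZMod q) + lam) ^ 2 - n := by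
  have h : ((P lam n : ℕ) : ℤ) = ((n : ℤ) + lam) ^ 2 - n := by
    rw [← fl_P lam hl]
    unfold Pool.Agent.H951R4.OD.fl
    ring
  have h2 : (((P lam n : ℕ) : ℤ) : ZMod q) = ((((n : ℤ) + lam) ^ 2 - n : ℤ) : ZMod q) := by rw [h]
  push_cast at h2
  exact h2

/-- the good residue class -/
theorem good_class (lam : ℕ) (hl : 1 ≤ lam) (q : ℕ) (hq : q.Prime)
    (hc : ¬ q ∣ 2 * lam * (4 * lam - 1)) (h4 : q % 4 = 1) (hlam : ch (lam : ℤ) q = -1)
    (hD : ch (1 - 4 * (lam : ℤ)) q = 1) (g : ℕ) (hg : ¬ q ∣ g) :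
    ∃ n0 : ZMod q, (∃ j : ℕ, n0 ^ j = -1) ∧ ((g : ZMod q) * n0 + lam) ^ 2 - (g : ZMod q) * n0 = 0 := by
  have hF : Fact q.Prime := ⟨hq⟩
  have hq2 : q ≠ 2 := by rintro rfl; norm_num at h4
  have hlam0 : (lam : ZMod q) ≠ 0 := by
    intro h
    rw [ZMod.natCast_eq_zero_iff] at h
    exact hc (dvd_mul_of_dvd_left (dvd_mul_of_dvd_right h 2) _)
  have hg0 : (g : ZMod q) ≠ 0 := by
    intro h
    rw [ZMod.natCast_eq_zero_iff] at h
    exact hg h
  have hlp := (Pool.Agent.H951R4.OD.ch_eq_neg_one_iff lam q hq hq2).1 hlam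
  have hhalf : (q - 1) / 2 = q / 2 := by omega
  rw [hhalf] at hlp
  -- a root
  have hcard := card_q lam hl q hq hc
  rw [hD] at hcard
  have hne : ((range q).filter (fun n : ℕ => q ∣ P lam n)).Nonempty := by
    rw [← Finset.card_pos]
    have : (0 : ℝ) < (((range q).filter (fun n : ℕ => q ∣ P lam n)).card : ℝ) := by
      rw [hcard]; norm_num
    exact_mod_cast this
  obtain ⟨a, ha⟩ := hne
  rw [mem_filter] at ha
  have haP : ((P lam a : ℕ) : ZMod q) = 0 := (ZMod.natCast_eq_zero_iff _ _).2 ha.2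
  rw [P_zmod lam hl] at haP
  set k1 : ZMod q := (a : ZMod q) + lam with hk1
  have hk1s : k1 ^ 2 = a := by linear_combination haP
  have hk1e : k1 ^ 2 + lam = k1 := by rw [hk1s]
  set k2 : ZMod q := 1 - k1 with hk2
  have hk2e : k2 ^ 2 + lam = k2 := by rw [hk2]; linear_combination hk1e
  have hk12 : k1 * k2 = lam := by rw [hk2]; linear_combination -hk1e
  have hk10 : k1 ≠ 0 := by
    intro h
    rw [h, zero_mul] at hk12
    exact hlam0 hk12.symm
  have hk20 : k2 ≠ 0 := by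
    intro h
    rw [h, mul_zero] at hk12
    exact hlam0 hk12.symm
  have hroot : ∀ k : ZMod q, k ^ 2 + lam = k → (k ^ 2 + lam) ^ 2 - k ^ 2 = 0 := by
    intro k hk
    rw [hk, sub_self]
  rcases ZMod.pow_div_two_eq_neg_one_or_one q hg0 with hgp | hgp
  · -- `g` is a square
    obtain ⟨t, ht⟩ := (ZMod.euler_criterion q hg0).2 hgp
    have ht0 : t ≠ 0 := by
      intro h
      rw [h, mul_zero] at ht
      exact hg0 ht
    have hx : ∀ k : ZMod q, k ^ 2 + lam = k → (k / t) ^ (q / 2) = -1 →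
        ∃ n0 : ZMod q, (∃ j : ℕ, n0 ^ j = -1) ∧
          ((g : ZMod q) * n0 + lam) ^ 2 - (g : ZMod q) * n0 = 0 := by
      intro k hk hx
      refine ⟨(k / t) ^ 2, ⟨q / 4, ?_⟩, ?_⟩
      · rw [← pow_mul]
        have : 2 * (q / 4) = q / 2 := by omega
        rw [this]
        exact hx
      · have e : (g : ZMod q) * (k / t) ^ 2 = k ^ 2 := by
          rw [ht]
          field_simp
        rw [e]
        exact hroot k hk
    have hprod : (k1 / t) ^ (q / 2) * (k2 / t) ^ (q / 2) = -1 := by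
      rw [← mul_pow]
      have e : k1 / t * (k2 / t) = lam / (g : ZMod q) := by
        rw [ht, ← hk12]
        field_simp
      rw [e, div_pow, hlp, hgp, div_one]
    rcases ZMod.pow_div_two_eq_neg_one_or_one q (div_ne_zero hk10 ht0) with h1 | h1
    · rw [h1, one_mul] at hprod
      exact hx k2 hk2e hprod
    · exact hx k1 hk1e h1
  · -- `g` is not a square
    refine ⟨k1 ^ 2 / g, ⟨q / 2, ?_⟩, ?_⟩
    · rw [div_pow, hgp, ← pow_mul]
      have : 2 * (q / 2) = q - 1 := by omega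
      rw [this, ZMod.pow_card_sub_one_eq_one hk10]
      norm_num
    · have e : (g : ZMod q) * (k1 ^ 2 / g) = k1 ^ 2 := by field_simp
      rw [e]
      exact hroot k1 hk1e

theorem fix_aux (lam : ℕ) (hl : 1 ≤ lam) (q : ℕ) (hq : q.Prime)
    (hc : ¬ q ∣ 2 * lam * (4 * lam - 1)) (h4 : q % 4 = 1) (hlam : ch (lam : ℤ) q = -1)
    (hD : ch (1 - 4 * (lam : ℤ)) q = 1) (g : ℕ) (hg : ¬ q ∣ g)
    (inst : DecidablePred fun n : ℕ => (q ∣ P lam (g * n) ∧ ¬ q ^ 2 ∣ P lam (g * n)) ∧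
      ∃ j : ℕ, (n : ZMod q) ^ j = -1) :
    (q : ℝ) - 2 ≤ (((range (q ^ 2)).filter (fun n : ℕ =>
      (q ∣ P lam (g * n) ∧ ¬ q ^ 2 ∣ P lam (g * n)) ∧ ∃ j : ℕ, (n : ZMod q) ^ j = -1)).card : ℝ) := by
  have hF : Fact q.Prime := ⟨hq⟩
  obtain ⟨n0, hj, hn0⟩ := good_class lam hl q hq hc h4 hlam hD g hg
  have h2 := card_sq lam hl q hq hc g hg
  set A := (range (q ^ 2)).filter (fun n : ℕ =>
      (q ∣ P lam (g * n) ∧ ¬ q ^ 2 ∣ P lam (g * n)) ∧ ∃ j : ℕ, (n : ZMod q) ^ j = -1) with hA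
  set B := (range (q ^ 2)).filter (fun n : ℕ => q ^ 2 ∣ P lam (g * n)) with hB
  have h3 : (range q).card ≤ (A ∪ B).card := by
    apply Finset.card_le_card_of_injOn (fun i => n0.val + q * i)
    · intro i hi
      have hi' := mem_range.1 (mem_coe.1 hi)
      have hv := ZMod.val_lt n0
      have hlt : n0.val + q * i < q ^ 2 := by
        have : q * (i + 1) ≤ q * q := Nat.mul_le_mul_left _ hi'
        rw [sq]
        have e : q * (i + 1) = q * i + q := by ring
        omega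
      have hcast : ((n0.val + q * i : ℕ) : ZMod q) = n0 := by
        push_cast
        rw [ZMod.natCast_self, zero_mul, add_zero, ZMod.natCast_zmod_val]
      have hd : q ∣ P lam (g * (n0.val + q * i)) := by
        rw [← ZMod.natCast_eq_zero_iff, P_zmod lam hl]
        rw [Nat.cast_mul, hcast]
        exact hn0
      rw [mem_coe, mem_union, hA, hB, mem_filter, mem_filter, mem_range]
      by_cases hsq : q ^ 2 ∣ P lam (g * (n0.val + q * i))
      · exact Or.inr ⟨hlt, hsq⟩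
      · refine Or.inl ⟨hlt, ⟨hd, hsq⟩, ?_⟩
        rw [hcast]
        exact hj
    · intro i _ j _ hij
      simp only at hij
      have : q * i = q * j := by omega
      exact Nat.eq_of_mul_eq_mul_left hq.pos this
  rw [card_range] at h3
  have h5 := h3.trans (card_union_le A B)
  have h6 : q ≤ A.card + 2 := h5.trans (Nat.add_le_add_left h2 _)
  have h7 : (q : ℝ) ≤ (A.card : ℝ) + 2 := by exact_mod_cast h6
  linarith

theorem dh (dm : S_DM) : S_DH := by
  intro lam hl hsq s hs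
  have hl1 : 1 ≤ lam := by omega
  obtain ⟨m1, m2, m3⟩ := dm lam hl hsq s hs
  exact
  { c0_pos := by
      change 0 < 2 * lam * (4 * lam - 1)
      have : 0 < 4 * lam - 1 := by omega
      positivity
    two := by
      change 2 ∣ 2 * lam * (4 * lam - 1)
      exact ⟨lam * (4 * lam - 1), by ring⟩
    e01 := Or.inr rfl
    neg := by
      change 1 - 4 * (lam : ℤ) < 0
      omega
    κ1 := by norm_num [datH]
    τ1 := by norm_num [datH]
    β01 := Or.inr rfl
    rho_low := by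
      intro q _ _
      change 1 + 1 * ch (1 - 4 * (lam : ℤ)) q ≤ 1 + ch (1 - 4 * (lam : ℤ)) q
      rw [one_mul]
    rho_up := by
      intro q
      change 0 ≤ 1 + ch (1 - 4 * (lam : ℤ)) q ∧ 1 + ch (1 - 4 * (lam : ℤ)) q ≤ 2
      rcases Pool.Agent.H951R4.OD.ch_val (1 - 4 * (lam : ℤ)) q with h | h | h <;> rw [h] <;> norm_num
    per := by
      intro q n _
      change (q ∣ P lam (n + q ^ 2) ∧ ¬ q ^ 2 ∣ P lam (n + q ^ 2)) ↔
        (q ∣ P lam n ∧ ¬ q ^ 2 ∣ P lam n)
      have h1 := dvd_add_mul lam q n q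
      rw [← sq] at h1
      have h2 := dvd_add_mul lam (q ^ 2) n 1
      rw [mul_one] at h2
      rw [h1, h2]
    nz := by
      intro q n hq hc hT hn
      have h1 : q ∣ P lam n := hT.1
      have h2 : q ∣ lam ^ 2 := by
        have e : P lam n = (n + (2 * lam - 1)) * n + lam ^ 2 := by unfold P; ring
        rw [e] at h1
        exact (Nat.dvd_add_right (hn.mul_left _)).1 h1
      have h3 : q ∣ lam := hq.dvd_of_dvd_pow h2
      apply hc
      change q ∣ 2 * lam * (4 * lam - 1)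
      exact dvd_mul_of_dvd_left (dvd_mul_of_dvd_right h3 2) _
    cnt := by
      intro q hq hqc
      exact cnt_aux lam hl1 q hq hqc _
    mert := by
      obtain ⟨C, hC⟩ := m1
      refine ⟨C, fun y z hy hyz => ?_⟩
      change |∑ q ∈ PI y z, (datH lam s).ρ q / q - 1 * Real.log (Real.log z / Real.log y)| ≤ C
      rw [one_mul]
      exact hC y z hy hyz
    bad := fun _ => m2
    fixQ := by
      intro q g hq hc hQ hg
      exact fix_aux lam hl1 q hq hc hQ.1 hQ.2.1 hQ.2.2 g hg _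
    mertQ := by
      obtain ⟨C, hC⟩ := m3
      refine ⟨C, fun y z hy hyz => (hC y z hy hyz).trans (le_of_eq ?_)⟩
      apply Finset.sum_congr _ (fun _ _ => rfl)
      ext q
      simp only [mem_filter]
      exact Iff.rfl }

end Pool.Agent.W12.HL
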